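import Pool.Agent.helper16.PU.Spec2

/-!
# Row NPR of project PU: the `p`-adic absolute value of an integer is at least that of its norm
-/

set_option autoImplicit false

open NumberField

namespace Pool.Agent.PU

theorem NPR_nat (p : ℕ) [Fact p.Prime] (N : ℕ) (hN : N ≠ 0) :
    ‖((N : ℕ) : ℚ_[p])‖ = ((p : ℝ) ^ padicValNat p N)⁻¹ := by
  have h1 : ((N : ℕ) : ℚ_[p]) = (((N : ℕ) : ℚ) : ℚ_[p]) := by push_cast; rfl
  have hN' : ((N : ℕ) : ℚ) ≠ 0 := by exact_mod_cast hN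
  rw [h1, Padic.eq_padicNorm, padicNorm.eq_zpow_of_nonzero hN', padicValRat.of_nat, zpow_neg, zpow_natCast]
  push_cast
  rfl

theorem NPR : NPR_stmt := by
  intro E _ _ p _ F _ _ ι hι x hx
  set N : ℕ := (Algebra.norm ℤ x).natAbs with hN
  have hN0 : N ≠ 0 := by
    rw [hN, Int.natAbs_ne_zero]
    exact Algebra.norm_ne_zero_iff.2 hx
  have hmem : ((N : ℕ) : 𝓞 E) ∈ Ideal.span {x} := by
    have h1 := Ideal.absNorm_mem (Ideal.span {x})
    rwa [Ideal.absNorm_span_singleton] at h1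
  obtain ⟨y, hy⟩ := Ideal.mem_span_singleton'.1 hmem
  have h2 : ((N : ℕ) : F) = ι (y : E) * ι (x : E) := by
    rw [← map_mul]
    have h3 : ((y : E) * (x : E)) = ((N : ℕ) : E) := by
      have h4 := congrArg (fun z : 𝓞 E => (z : E)) hy
      push_cast at h4
      exact h4
    rw [h3, map_natCast]
  have h5 : ‖((N : ℕ) : F)‖ ≤ ‖ι (x : E)‖ := by
    rw [h2, norm_mul]
    exact mul_le_of_le_one_left (norm_nonneg _) (hι y)
  have h6 : ‖((N : ℕ) : F)‖ = ‖((N : ℕ) : ℚ_[p])‖ := by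
    rw [← map_natCast (algebraMap ℚ_[p] F) N, norm_algebraMap']
  rw [h6, NPR_nat p N hN0] at h5
  exact h5

end Pool.Agent.PU
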